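import Pool.Agent.K7.H23.PT.Stm
import Pool.Agent.H474R2.GE.FA
import Pool.Agent.Helper559.Mertens

set_option autoImplicit false

/-!
# Job MQ of project PT (MP_d88658_nt)

Mertens' theorem for the primes modulo which `Δ` is, is not, a square.
-/

namespace Pool.Agent.K7.H42.PT

open Polynomial Finset Pool.Agent.H474R2.PG Pool.Agent.H474R2.GE Pool.Agent.K7.H23.PT

/-- the polynomial `X² - Δ` -/
noncomputable def fQ (Δ : ℤ) : ℤ[X] := X ^ 2 - C Δ

lemma fQ_eval (Δ a : ℤ) : (fQ Δ).eval a = a ^ 2 - Δ := by simp [fQ]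

lemma fQ_monic (Δ : ℤ) : (fQ Δ).Monic := monic_X_pow_sub_C Δ two_ne_zero

lemma fQ_deg (Δ : ℤ) : (fQ Δ).natDegree = 2 := natDegree_X_pow_sub_C

lemma fQ_irred {Δ : ℤ} (h : ¬ IsSquare Δ) : Irreducible (fQ Δ) := by
  rw [(fQ_monic Δ).irreducible_iff_natDegree']
  refine ⟨?_, ?_⟩
  · intro h1
    have := fQ_deg Δ
    rw [h1, natDegree_one] at this
    omega
  · intro f g hf hg hfg hdeg
    rw [fQ_deg] at hdeg
    have hg1 : g.natDegree = 1 := by
      simp only [Finset.mem_Ioc] at hdeg
      omega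
    apply h
    have hr : (fQ Δ).IsRoot (- g.coeff 0) := by
      rw [← hfg, IsRoot.def, eval_mul]
      have : g.eval (- g.coeff 0) = 0 := by
        rw [hg.eq_X_add_C hg1]
        simp
      rw [this, mul_zero]
    rw [IsRoot.def, fQ_eval] at hr
    exact ⟨- g.coeff 0, by linarith⟩

lemma rho_eq_zero {Δ : ℤ} {p : ℕ} (h : ¬ IsSquare ((Δ : ℤ) : ZMod p)) : rho (fQ Δ) p = 0 := by
  unfold rho
  rw [Finset.card_eq_zero, Finset.filter_eq_empty_iff]
  intro a _ hd
  rw [fQ_eval, ← ZMod.intCast_zmod_eq_zero_iff_dvd] at hd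
  push_cast at hd
  exact h ⟨(a : ZMod p), by rw [← pow_two]; exact (sub_eq_zero.1 hd).symm⟩

lemma rho_le_two {Δ : ℤ} {p : ℕ} (hp : p.Prime) : rho (fQ Δ) p ≤ 2 := by
  haveI : Fact p.Prime := ⟨hp⟩
  unfold rho
  have h1 : ((Finset.range p).filter (fun a : ℕ => (p : ℤ) ∣ (fQ Δ).eval (a : ℤ))).card ≤
      ((X ^ 2 - C ((Δ : ℤ) : ZMod p) : (ZMod p)[X]).roots.toFinset).card := by
    refine Finset.card_le_card_of_injOn (fun a => (a : ZMod p)) ?_ ?_
    · intro a ha
      simp only [Finset.coe_filter, Finset.mem_range, Set.mem_setOf_eq] at ha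
      simp only [Finset.mem_coe, Multiset.mem_toFinset]
      rw [mem_roots (monic_X_pow_sub_C _ two_ne_zero).ne_zero, IsRoot.def]
      have := ha.2
      rw [fQ_eval, ← ZMod.intCast_zmod_eq_zero_iff_dvd] at this
      push_cast at this
      simpa using this
    · intro a ha b hb hab
      simp only [Finset.coe_filter, Finset.mem_range, Set.mem_setOf_eq] at ha hb
      simp only at hab
      have := (ZMod.natCast_eq_natCast_iff a b p).1 hab
      exact Nat.ModEq.eq_of_lt_of_lt this ha.1 hb.1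
  refine h1.trans ((Multiset.toFinset_card_le _).trans ((card_roots' _).trans ?_))
  rw [natDegree_X_pow_sub_C]

lemma rho_eq_two {Δ : ℤ} {p : ℕ} (hp : p.Prime) (h2 : p ≠ 2) (hΔ : ¬ (p : ℤ) ∣ Δ)
    (h : IsSquare ((Δ : ℤ) : ZMod p)) : rho (fQ Δ) p = 2 := by
  haveI : Fact p.Prime := ⟨hp⟩
  refine le_antisymm (rho_le_two hp) ?_
  obtain ⟨b, hb⟩ := h
  have hb0 : b ≠ 0 := by
    rintro rfl
    rw [mul_zero, ZMod.intCast_zmod_eq_zero_iff_dvd] at hb
    exact hΔ hb
  have hne : b.val ≠ (-b).val := by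
    intro he
    have h3 : b = -b := ZMod.val_injective p he
    have h4 : (2 : ZMod p) * b = 0 := by
      rw [two_mul]
      nth_rewrite 2 [h3]
      ring
    rcases mul_eq_zero.1 h4 with h5 | h5
    · have h6 : ((2 : ℕ) : ZMod p) = 0 := by exact_mod_cast h5
      rw [ZMod.natCast_eq_zero_iff] at h6
      exact h2 ((Nat.prime_dvd_prime_iff_eq hp Nat.prime_two).1 h6)
    · exact hb0 h5
  unfold rho
  rw [← Finset.card_pair hne]
  apply Finset.card_le_card
  intro x hx
  rw [Finset.mem_insert, Finset.mem_singleton] at hx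
  rw [Finset.mem_filter, Finset.mem_range, fQ_eval, ← ZMod.intCast_zmod_eq_zero_iff_dvd]
  push_cast
  rcases hx with rfl | rfl
  · exact ⟨ZMod.val_lt _, by rw [ZMod.natCast_zmod_val, hb]; ring⟩
  · exact ⟨ZMod.val_lt _, by rw [ZMod.natCast_zmod_val, hb]; ring⟩

open scoped Classical in
/-- **Job MQ.** -/
theorem mq : StMQ := by
  intro Δ hΔ
  have hΔ0 : Δ ≠ 0 := by
    rintro rfl
    exact hΔ ⟨0, by simp⟩
  obtain ⟨C1, hC10, hC1⟩ := mertens_rho (fQ Δ) (fQ_irred hΔ) (by rw [fQ_deg]; omega)
  obtain ⟨C2, hC20, hC2⟩ := Pool.Agent.Helper559.mertens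
  set T : Finset ℕ := (2 * Δ).natAbs.primeFactors with hT
  set A : ℕ → ℝ := fun z => ∑ p ∈ (Finset.range (z + 1)).filter
    (fun p => p.Prime ∧ IsSquare ((Δ : ℤ) : ZMod p)), (1 : ℝ) / p with hA
  set B : ℕ → ℝ := fun z => ∑ p ∈ (Finset.range (z + 1)).filter
    (fun p => p.Prime ∧ ¬ IsSquare ((Δ : ℤ) : ZMod p)), (1 : ℝ) / p with hB
  have hAB : ∀ z, A z + B z = Pool.Agent.Helper559.S z := by
    intro z
    have e1 : (Finset.Icc 1 z).filter Nat.Prime = (Finset.range (z + 1)).filter Nat.Prime := by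
      ext p
      simp only [Finset.mem_filter, Finset.mem_Icc, Finset.mem_range]
      constructor
      · rintro ⟨h1, h2⟩
        exact ⟨by omega, h2⟩
      · rintro ⟨h1, h2⟩
        exact ⟨⟨h2.one_lt.le, by omega⟩, h2⟩
    simp only [hA, hB, Pool.Agent.Helper559.S]
    rw [e1, ← Finset.sum_filter_add_sum_filter_not ((Finset.range (z + 1)).filter Nat.Prime)
      (fun p => IsSquare ((Δ : ℤ) : ZMod p)), Finset.filter_filter, Finset.filter_filter]
  have hAS : ∀ z : ℕ, |Sg (rho (fQ Δ)) z - 2 * A z| ≤ 2 * T.card := by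
    intro z
    have e1 : PR (z : ℝ) = (Finset.range (z + 1)).filter Nat.Prime := by
      unfold PR
      rw [Nat.floor_natCast]
      ext p
      simp only [Finset.mem_filter, Finset.mem_Icc, Finset.mem_range]
      constructor
      · rintro ⟨h1, h2⟩
        exact ⟨by omega, h2⟩
      · rintro ⟨h1, h2⟩
        exact ⟨⟨h2.one_lt.le, by omega⟩, h2⟩
    have e2 : Sg (rho (fQ Δ)) z - 2 * A z = ∑ p ∈ (Finset.range (z + 1)).filter Nat.Prime,
        ((rho (fQ Δ) p : ℝ) - (if IsSquare ((Δ : ℤ) : ZMod p) then 2 else 0)) / p := by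
      simp only [hA, Sg]
      rw [e1, ← Finset.filter_filter, Finset.sum_filter (fun p => IsSquare ((Δ : ℤ) : ZMod p)),
        Finset.mul_sum, ← Finset.sum_sub_distrib]
      refine Finset.sum_congr rfl fun p _ => ?_
      split_ifs <;> ring
    rw [e2]
    calc |∑ p ∈ (Finset.range (z + 1)).filter Nat.Prime,
          ((rho (fQ Δ) p : ℝ) - (if IsSquare ((Δ : ℤ) : ZMod p) then 2 else 0)) / p|
        ≤ ∑ p ∈ (Finset.range (z + 1)).filter Nat.Prime,
          |((rho (fQ Δ) p : ℝ) - (if IsSquare ((Δ : ℤ) : ZMod p) then 2 else 0)) / p| :=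
          Finset.abs_sum_le_sum_abs _ _
      _ ≤ ∑ p ∈ (Finset.range (z + 1)).filter Nat.Prime, (if p ∈ T then (2 : ℝ) else 0) := by
          refine Finset.sum_le_sum fun p hp => ?_
          have hpp := (Finset.mem_filter.1 hp).2
          have hp1 : (1 : ℝ) ≤ p := by exact_mod_cast hpp.one_lt.le
          by_cases hpT : p ∈ T
          · rw [if_pos hpT, abs_div, Nat.abs_cast, div_le_iff₀ (by linarith)]
            have h1 : (rho (fQ Δ) p : ℝ) ≤ 2 := by exact_mod_cast rho_le_two hpp
            have h0 : (0 : ℝ) ≤ (rho (fQ Δ) p : ℝ) := Nat.cast_nonneg _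
            have h2 : |(rho (fQ Δ) p : ℝ) - (if IsSquare ((Δ : ℤ) : ZMod p) then 2 else 0)| ≤ 2 := by
              split_ifs <;> rw [abs_le] <;> constructor <;> linarith
            nlinarith
          · rw [if_neg hpT]
            have hpT' : ¬ p ∣ (2 * Δ).natAbs := by
              intro hd
              exact hpT (Nat.mem_primeFactors.2 ⟨hpp, hd, by
                rw [Int.natAbs_ne_zero]
                exact mul_ne_zero two_ne_zero hΔ0⟩)
            rw [Int.natAbs_mul] at hpT'
            have h2 : p ≠ 2 := by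
              rintro rfl
              exact hpT' (Dvd.intro _ rfl)
            have h3 : ¬ (p : ℤ) ∣ Δ := by
              intro hd
              apply hpT'
              exact Dvd.dvd.mul_left (Int.natCast_dvd.1 hd) _
            by_cases hs : IsSquare ((Δ : ℤ) : ZMod p)
            · rw [rho_eq_two hpp h2 h3 hs, if_pos hs]
              norm_num
            · rw [rho_eq_zero hs, if_neg hs]
              norm_num
      _ ≤ 2 * T.card := by
          rw [← Finset.sum_filter, Finset.sum_const, nsmul_eq_mul, mul_comm]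
          gcongr
          intro p hp
          exact (Finset.mem_filter.1 hp).2
  refine ⟨2 * C1 + C2 + 2 * T.card + 2, fun z hz => ?_⟩
  have hTc : (0 : ℝ) ≤ (T.card : ℝ) := Nat.cast_nonneg _
  have key : |A z - Real.log (Real.log z) / 2| ≤ C1 + T.card + 1 := by
    rcases Nat.lt_or_ge z 3 with h3 | h3
    · have hz2 : z = 2 := by omega
      subst hz2
      have hA0 : 0 ≤ A 2 := by
        simp only [hA]
        exact Finset.sum_nonneg fun p _ => by positivity
      have hA1 : A 2 ≤ 1 / 2 := by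
        have hsub : (Finset.range (2 + 1)).filter
            (fun p => p.Prime ∧ IsSquare ((Δ : ℤ) : ZMod p)) ⊆ {2} := by
          intro p hp
          simp only [Finset.mem_filter, Finset.mem_range] at hp
          rw [Finset.mem_singleton]
          have := hp.2.1.two_le
          omega
        simp only [hA]
        calc _ ≤ ∑ p ∈ ({2} : Finset ℕ), (1 : ℝ) / p :=
              Finset.sum_le_sum_of_subset_of_nonneg hsub fun p _ _ => by positivity
          _ = 1 / 2 := by simp
      have hl := Real.log_two_gt_d9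
      have hl' := Real.log_two_lt_d9
      have h4 : Real.log (Real.log (2 : ℕ)) ≤ 0 := by
        apply Real.log_nonpos
        · push_cast; linarith
        · push_cast; linarith
      have h5 : -1 ≤ Real.log (Real.log (2 : ℕ)) := by
        rw [Real.le_log_iff_exp_le (by push_cast; linarith)]
        have h6 : Real.exp (-1) * Real.exp 1 = 1 := by
          rw [← Real.exp_add]; simp
        have h7 := Real.exp_one_gt_d9
        have h8 : 0 < Real.exp (-1) := Real.exp_pos _
        push_cast
        nlinarith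
      generalize Real.log (Real.log ((2 : ℕ) : ℝ)) = L at h4 h5 ⊢
      generalize A 2 = a at hA0 hA1 ⊢
      rw [abs_le]
      constructor <;> linarith
    · have h3' : (3 : ℝ) ≤ z := by exact_mod_cast h3
      have h1 := hC1 z h3'
      have h2 := hAS z
      rw [abs_le] at h1 h2 ⊢
      constructor <;> linarith [h1.1, h1.2, h2.1, h2.2]
  refine ⟨?_, ?_⟩
  · change |A z - Real.log (Real.log z) / 2| ≤ _
    linarith
  · change |B z - Real.log (Real.log z) / 2| ≤ _
    have h1 := hC2 z hz
    have h2 := hAB z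
    rw [abs_le] at h1 key ⊢
    constructor <;> linarith [h1.1, h1.2, key.1, key.2]

end Pool.Agent.K7.H42.PT
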